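import Pool.Agent.R547.EQ.Main

set_option autoImplicit false

/-!
# Equality testing on graphs: `f(G) = fc(G)`

For every connected graph `G` with at least two vertices the communication cost `f(n, G)` of
testing equality of `n`-bit strings satisfies `f(n, G) / n → fc(G)`, the fractional cut packing
number.
-/

namespace Pool.Agent.Results.MP_bf2f06_lc.CutPackingLimit

open Filter Topology
open Pool.Agent.R547.EQ

/-- For every connected graph `G` with at least two vertices, `f(n, G) / n` tends to `fc(G)`. The
same holds when only one player has to know the answer, and the minimum `f(n, G)` is attained. -/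
theorem result (V : Type) [Fintype V] (G : SimpleGraph V) (hG : G.Connected)
    (hV : 2 ≤ Fintype.card V) :
    Tendsto (fun n : ℕ => (eqCost G n : ℝ) / n) atTop (𝓝 (fc G)) ∧
    Tendsto (fun n : ℕ => (eqCostOne G n : ℝ) / n) atTop (𝓝 (fc G)) ∧
    ∀ n : ℕ, ∃ P : Protocol V (Fin n → Bool), P.SelfDelimiting G ∧ (∀ u, P.CorrectAt G u) ∧
      ∀ x, P.cost G x ≤ eqCost G n := by
  have hV' : ∀ u : V, ∃ w, w ≠ u := by
    intro u
    have : Nontrivial V := Fintype.one_lt_card_iff_nontrivial.1 hV
    exact exists_ne u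
  refine ⟨(tendsto_eqCost G hG hV').1, (tendsto_eqCost G hG hV').2, fun n => ?_⟩
  have hne : {c | ∃ P : Protocol V (Fin n → Bool), P.SelfDelimiting G ∧
      (∀ u, P.CorrectAt G u) ∧ ∀ x, P.cost G x ≤ c}.Nonempty := by
    obtain ⟨r, M, K, W, -, -, h⟩ := eqCost_bound G hG hV' (fc G + 1) (by linarith)
    obtain ⟨P, h1, h2, h3⟩ := h n
    exact ⟨_, P, h1, h2, h3⟩
  exact Nat.sInf_mem hne

end Pool.Agent.Results.MP_bf2f06_lc.CutPackingLimit
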